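import Mathlib

set_option autoImplicit false

namespace Pool.Agent.H411Z.LH

variable {V : Type*} (G : SimpleGraph V) [G.LocallyFinite]

/-- The mean of `f` over the neighbours of `x`. -/
noncomputable def avg (f : V → ℝ) (x : V) : ℝ :=
  (1 / (G.degree x : ℝ)) * ∑ y ∈ G.neighborFinset x, f y

/-- `f` has the mean value property for simple random walk at every vertex. -/
def IsHarmonic (f : V → ℝ) : Prop := ∀ x, f x = avg G f x

omit [G.LocallyFinite] in
/-- `f` is Lipschitz for the graph distance. -/
def IsLip (f : V → ℝ) : Prop := ∃ C : ℝ, ∀ x y, |f x - f y| ≤ C * (G.dist x y : ℝ)

open Classical in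
/-- `hit G o n x` is the probability that simple random walk started at `x` visits `o` at some
time in `{0, …, n}` (first step recursion). -/
noncomputable def hit (o : V) : ℕ → V → ℝ
  | 0 => fun x => if x = o then 1 else 0
  | n + 1 => fun x => if x = o then 1 else avg G (hit o n) x

/-- The probability that simple random walk started at `o` returns to `o`: the supremum over `n`
of the probability of a visit to `o` at some time in `{1, …, n + 1}`. -/
noncomputable def returnProb (o : V) : ℝ := ⨆ n : ℕ, avg G (hit G o n) o

/-- Simple random walk returns to its starting vertex with probability less than one, whatever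
the starting vertex. -/
def Transient : Prop := ∀ o, returnProb G o < 1

end Pool.Agent.H411Z.LH
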