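import Mathlib
import Pool.Agent.H411Z.LH.Defs

set_option autoImplicit false

namespace Pool.Agent.H411Z.LH

open Finset

variable {V : Type*} (G : SimpleGraph V) [G.LocallyFinite]

theorem avg_mono {f g : V → ℝ} (h : ∀ x, f x ≤ g x) (x : V) : avg G f x ≤ avg G g x := by
  unfold avg
  exact mul_le_mul_of_nonneg_left (Finset.sum_le_sum fun y _ => h y) (by positivity)

theorem avg_const_le (c : ℝ) (hc : 0 ≤ c) (x : V) : avg G (fun _ => c) x ≤ c := by
  unfold avg
  rw [Finset.sum_const, SimpleGraph.card_neighborFinset_eq_degree, nsmul_eq_mul]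
  by_cases h : (G.degree x : ℝ) = 0
  · simp [h, hc]
  · rw [← mul_assoc, one_div_mul_cancel h, one_mul]

theorem avg_zero (x : V) : avg G (fun _ => (0 : ℝ)) x = 0 := by simp [avg]

theorem eq_avg_iff {f : V → ℝ} {x : V} (hx : G.degree x ≠ 0) :
    f x = avg G f x ↔ ∑ y ∈ G.neighborFinset x, (f x - f y) = 0 := by
  have h : (G.degree x : ℝ) ≠ 0 := by exact_mod_cast hx
  unfold avg
  rw [Finset.sum_sub_distrib, Finset.sum_const, SimpleGraph.card_neighborFinset_eq_degree,
    nsmul_eq_mul, sub_eq_zero, one_div, eq_inv_mul_iff_mul_eq₀ h]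

theorem sum_zero_of_eq_avg {f : V → ℝ} {x : V} (h : f x = avg G f x) :
    ∑ y ∈ G.neighborFinset x, (f x - f y) = 0 := by
  by_cases hx : G.degree x = 0
  · have : G.neighborFinset x = ∅ := by
      rw [← Finset.card_eq_zero, SimpleGraph.card_neighborFinset_eq_degree, hx]
    simp [this]
  · exact (eq_avg_iff G hx).1 h

/-- The Dirichlet problem with boundary values `0` and `1` off a set `S`. -/
theorem exists_dirichlet (S C : Set V) :
    ∃ u : V → ℝ, (∀ x, 0 ≤ u x ∧ u x ≤ 1) ∧ (∀ x ∈ S, u x = avg G u x) ∧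
      (∀ x, x ∉ S → x ∈ C → u x = 1) ∧ (∀ x, x ∉ S → x ∉ C → u x = 0) := by
  classical
  have : Fact ((0 : ℝ) ≤ 1) := ⟨zero_le_one⟩
  let Φ : (V → Set.Icc (0 : ℝ) 1) →o (V → Set.Icc (0 : ℝ) 1) :=
    { toFun := fun u x =>
        if x ∈ S then ⟨avg G (fun y => (u y : ℝ)) x, by
          constructor
          · exact (avg_zero G x).symm.le.trans (avg_mono G (fun y => (u y).2.1) x)
          · exact (avg_mono G (fun y => (u y).2.2) x).trans (avg_const_le G 1 zero_le_one x)⟩
        else if x ∈ C then ⟨1, by simp⟩ else ⟨0, by simp⟩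
      monotone' := by
        intro u v huv x
        dsimp only
        split_ifs
        · exact avg_mono G (fun y => huv y) x
        · exact le_rfl
        · exact le_rfl }
  have hfix : Φ (OrderHom.lfp Φ) = OrderHom.lfp Φ := OrderHom.map_lfp Φ
  set w := OrderHom.lfp Φ with hw
  refine ⟨fun x => (w x : ℝ), fun x => (w x).2, fun x hx => ?_, fun x hx hC => ?_,
    fun x hx hC => ?_⟩
  · have := congrArg (fun u : V → Set.Icc (0 : ℝ) 1 => (u x : ℝ)) hfix
    simp only [Φ, OrderHom.coe_mk, if_pos hx] at this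
    exact this.symm
  · have := congrArg (fun u : V → Set.Icc (0 : ℝ) 1 => (u x : ℝ)) hfix
    simp only [Φ, OrderHom.coe_mk, if_neg hx, if_pos hC] at this
    exact this.symm
  · have := congrArg (fun u : V → Set.Icc (0 : ℝ) 1 => (u x : ℝ)) hfix
    simp only [Φ, OrderHom.coe_mk, if_neg hx, if_neg hC] at this
    exact this.symm

open Classical in
/-- The flux of `u` out of `A`, counted on the edges inside `T`. -/
noncomputable def flux (T : Finset V) (u : V → ℝ) (A : Set V) : ℝ :=
  ∑ z ∈ T, ∑ w ∈ T, if z ∈ A ∧ w ∉ A ∧ G.Adj z w then u z - u w else 0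

omit [G.LocallyFinite] in
open Classical in
theorem flux_eq (T : Finset V) (u : V → ℝ) (A : Set V) :
    flux G T u A = ∑ z ∈ T, if z ∈ A then (∑ w ∈ T, if G.Adj z w then u z - u w else 0) else 0 := by
  have h0 : ∑ z ∈ T, ∑ w ∈ T, (if z ∈ A ∧ w ∈ A ∧ G.Adj z w then u z - u w else 0) = 0 := by
    have h1 : ∑ z ∈ T, ∑ w ∈ T, (if z ∈ A ∧ w ∈ A ∧ G.Adj z w then u z - u w else 0)
        = ∑ z ∈ T, ∑ w ∈ T, -(if z ∈ A ∧ w ∈ A ∧ G.Adj z w then u z - u w else 0) := by
      rw [Finset.sum_comm]
      refine Finset.sum_congr rfl fun z _ => Finset.sum_congr rfl fun w _ => ?_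
      by_cases h : z ∈ A ∧ w ∈ A ∧ G.Adj z w
      · rw [if_pos h, if_pos ⟨h.2.1, h.1, h.2.2.symm⟩]; ring
      · rw [if_neg h, if_neg (fun h' => h ⟨h'.2.1, h'.1, h'.2.2.symm⟩)]; ring
    simp only [Finset.sum_neg_distrib] at h1
    linarith
  unfold flux
  rw [← add_zero (∑ z ∈ T, ∑ w ∈ T, if z ∈ A ∧ w ∉ A ∧ G.Adj z w then u z - u w else 0)]
  nth_rewrite 2 [← h0]
  rw [← Finset.sum_add_distrib]
  refine Finset.sum_congr rfl fun z _ => ?_
  rw [← Finset.sum_add_distrib]
  by_cases hz : z ∈ A
  · rw [if_pos hz]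
    refine Finset.sum_congr rfl fun w _ => ?_
    by_cases hw : w ∈ A <;> by_cases ha : G.Adj z w <;> simp [hz, hw, ha]
  · simp [hz]

theorem flux_congr (S T : Finset V) (hT : ∀ x ∈ S, ∀ y, G.Adj x y → y ∈ T) (u : V → ℝ)
    (hu : ∀ x ∈ S, u x = avg G u x) (A B : Set V) (hAB : ∀ x, x ∉ S → (x ∈ A ↔ x ∈ B)) :
    flux G T u A = flux G T u B := by
  classical
  rw [flux_eq, flux_eq]
  refine Finset.sum_congr rfl fun z _ => ?_
  by_cases hz : z ∈ S
  · have h0 : (∑ w ∈ T, if G.Adj z w then u z - u w else 0) = 0 := by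
      rw [← Finset.sum_filter, ← sum_zero_of_eq_avg G (hu z hz)]
      refine Finset.sum_congr ?_ fun _ _ => rfl
      ext w
      simp only [Finset.mem_filter, SimpleGraph.mem_neighborFinset]
      exact ⟨fun h => h.2, fun h => ⟨hT z hz w h, h⟩⟩
    convert (rfl : (0 : ℝ) = 0) using 1
    · split_ifs
      · convert h0
      · rfl
    · split_ifs
      · convert h0
      · rfl
  · by_cases hA : z ∈ A
    · rw [if_pos hA, if_pos ((hAB z hz).1 hA)]
    · rw [if_neg hA, if_neg (fun h => hA ((hAB z hz).2 h))]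

omit [G.LocallyFinite] in
theorem lip_of_edges (hG : G.Connected) {f : V → ℝ} {c : ℝ}
    (h : ∀ x y, G.Adj x y → |f x - f y| ≤ c) (x y : V) : |f x - f y| ≤ c * (G.dist x y : ℝ) := by
  obtain ⟨p, hp⟩ := hG.exists_walk_length_eq_dist x y
  rw [← hp]
  clear hp
  induction p with
  | nil => simp
  | @cons a b d hab q ih =>
    rw [SimpleGraph.Walk.length_cons]
    push_cast
    have h1 := h a b hab
    have h2 := abs_sub_le (f a) (f b) (f d)
    linarith

/-- The finite approximation: a function with gradient at most one, harmonic on `S`, with total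
gradient at least one on the edges at `K`. -/
theorem exists_approx (hG : G.Connected) (K S : Finset V) (hKS : K ⊆ S) (C : Set V)
    (hC : ∀ x y, x ∈ C → G.Adj x y → y ∉ K → y ∈ C) (a b : V) (ha : a ∈ C) (haS : a ∉ S)
    (hb : b ∉ C) (hbS : b ∉ S) (o : V) :
    ∃ f : V → ℝ, f o = 0 ∧ (∀ x y, G.Adj x y → |f x - f y| ≤ 1) ∧
      (∀ x ∈ S, ∑ y ∈ G.neighborFinset x, (f x - f y) = 0) ∧
      1 ≤ ∑ w ∈ K, ∑ z ∈ G.neighborFinset w, |f z - f w| := by
  classical
  obtain ⟨u, hu01, huS, hu1, hu0⟩ := exists_dirichlet G (S : Set V) C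
  set T : Finset V := S ∪ S.biUnion (fun x => G.neighborFinset x) with hTdef
  have hT : ∀ x ∈ S, ∀ y, G.Adj x y → y ∈ T := by
    intro x hx y hxy
    exact Finset.mem_union_right _ (Finset.mem_biUnion.2 ⟨x, hx, by simpa using hxy⟩)
  have hST : ∀ x ∈ S, x ∈ T := fun x hx => Finset.mem_union_left _ hx
  set I := flux G T u C with hI
  have hlt : ∀ x y, G.Adj x y → u y < u x → u x - u y ≤ I := by
    intro x y hxy hlt
    have hxyT : x ∈ T ∧ y ∈ T := by
      by_cases hx : x ∈ S
      · exact ⟨hST x hx, hT x hx y hxy⟩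
      by_cases hy : y ∈ S
      · exact ⟨hT y hy x hxy.symm, hST y hy⟩
      exfalso
      by_cases hxC : x ∈ C
      · have hyC : y ∈ C := hC x y hxC hxy (fun h => hy (hKS h))
        rw [hu1 x hx hxC, hu1 y hy hyC] at hlt
        exact lt_irrefl _ hlt
      · rw [hu0 x hx hxC] at hlt
        linarith [(hu01 y).1]
    have hAC : flux G T u {z | u x ≤ u z} = I := by
      refine flux_congr G S T hT u huS _ _ fun z hz => ?_
      constructor
      · intro h
        by_contra hzC
        have h' : u x ≤ u z := h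
        rw [hu0 z hz hzC] at h'
        linarith [(hu01 y).1]
      · intro h
        change u x ≤ u z
        rw [hu1 z hz h]
        exact (hu01 x).2
    rw [← hAC]
    unfold flux
    have hnn : ∀ z w : V, (0 : ℝ) ≤ if z ∈ {z | u x ≤ u z} ∧ w ∉ {z | u x ≤ u z} ∧ G.Adj z w
        then u z - u w else 0 := by
      intro z w
      split_ifs with h
      · have h1 : u x ≤ u z := h.1
        have h2 : ¬ u x ≤ u w := h.2.1
        linarith [not_le.1 h2]
      · exact le_rfl
    refine le_trans ?_ (Finset.single_le_sum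
      (f := fun z => ∑ w ∈ T, if z ∈ {z | u x ≤ u z} ∧ w ∉ {z | u x ≤ u z} ∧ G.Adj z w
        then u z - u w else 0) (fun z _ => Finset.sum_nonneg fun w _ => hnn z w) hxyT.1)
    refine le_trans ?_ (Finset.single_le_sum
      (f := fun w => if x ∈ {z | u x ≤ u z} ∧ w ∉ {z | u x ≤ u z} ∧ G.Adj x w
        then u x - u w else 0) (fun w _ => hnn x w) hxyT.2)
    rw [if_pos ⟨le_refl (u x), not_le.2 hlt, hxy⟩]
  have hIpos : 0 < I := by
    by_contra hcon
    have hle : I ≤ 0 := not_lt.1 hcon
    have hedge : ∀ x y, G.Adj x y → |u x - u y| ≤ 0 := by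
      intro x y hxy
      rcases lt_trichotomy (u x) (u y) with h | h | h
      · linarith [hlt y x hxy.symm h]
      · simp [h]
      · linarith [hlt x y hxy h]
    have := lip_of_edges G hG hedge a b
    rw [hu1 a haS ha, hu0 b hbS hb] at this
    norm_num at this
  have hedge : ∀ x y, G.Adj x y → |u x - u y| ≤ I := by
    intro x y hxy
    rcases lt_trichotomy (u x) (u y) with h | h | h
    · rw [abs_sub_comm, abs_of_pos (sub_pos.2 h)]; exact hlt y x hxy.symm h
    · simp [h, hIpos.le]
    · rw [abs_of_pos (sub_pos.2 h)]; exact hlt x y hxy h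
  have hfl : I ≤ ∑ w ∈ K, ∑ z ∈ G.neighborFinset w, |u z - u w| := by
    rw [hI]
    unfold flux
    rw [Finset.sum_comm]
    calc ∑ w ∈ T, ∑ z ∈ T, (if z ∈ C ∧ w ∉ C ∧ G.Adj z w then u z - u w else 0)
        ≤ ∑ w ∈ T, (if w ∈ K then ∑ z ∈ G.neighborFinset w, |u z - u w| else 0) := by
          refine Finset.sum_le_sum fun w _ => ?_
          by_cases hw : w ∈ K
          · rw [if_pos hw]
            calc ∑ z ∈ T, (if z ∈ C ∧ w ∉ C ∧ G.Adj z w then u z - u w else 0)
                ≤ ∑ z ∈ T, (if z ∈ G.neighborFinset w then |u z - u w| else 0) := by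
                  refine Finset.sum_le_sum fun z _ => ?_
                  by_cases h : z ∈ C ∧ w ∉ C ∧ G.Adj z w
                  · rw [if_pos h, if_pos (by simpa using h.2.2.symm)]
                    exact le_abs_self _
                  · rw [if_neg h]
                    split_ifs
                    · exact abs_nonneg _
                    · exact le_rfl
              _ ≤ ∑ z ∈ G.neighborFinset w, |u z - u w| := by
                  rw [← Finset.sum_filter]
                  exact Finset.sum_le_sum_of_subset_of_nonneg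
                    (fun z hz => (Finset.mem_filter.1 hz).2) (fun _ _ _ => abs_nonneg _)
          · rw [if_neg hw]
            refine le_of_eq (Finset.sum_eq_zero fun z _ => if_neg fun h => ?_)
            exact h.2.1 (hC z w h.1 h.2.2 hw)
      _ ≤ ∑ w ∈ K, ∑ z ∈ G.neighborFinset w, |u z - u w| := by
          rw [← Finset.sum_filter]
          exact Finset.sum_le_sum_of_subset_of_nonneg
            (fun z hz => (Finset.mem_filter.1 hz).2)
            (fun _ _ _ => Finset.sum_nonneg fun _ _ => abs_nonneg _)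
  have hdiff : ∀ x y, (u x - u o) / I - (u y - u o) / I = (u x - u y) / I := by
    intro x y; ring
  refine ⟨fun x => (u x - u o) / I, by simp, fun x y hxy => ?_, fun x hx => ?_, ?_⟩
  · rw [hdiff, abs_div, abs_of_pos hIpos, div_le_one hIpos]
    exact hedge x y hxy
  · simp only [hdiff]
    rw [← Finset.sum_div, sum_zero_of_eq_avg G (huS x hx), zero_div]
  · simp only [hdiff, abs_div, abs_of_pos hIpos, ← Finset.sum_div]
    rw [le_div_iff₀ hIpos, one_mul]
    exact hfl

theorem two_ends (hG : G.Connected) (K : Finset V) (C D : G.ComponentCompl (K : Set V))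
    (hCD : C ≠ D) (hC : C.supp.Infinite) (hD : D.supp.Infinite) :
    ∃ f : V → ℝ, IsHarmonic G f ∧ IsLip G f ∧ ∃ x y, f x ≠ f y := by
  classical
  obtain ⟨o⟩ := hG.nonempty
  let X : Set (V → ℝ) := {f | f o = 0 ∧ (∀ x y, G.Adj x y → |f x - f y| ≤ 1) ∧
      1 ≤ ∑ w ∈ K, ∑ z ∈ G.neighborFinset w, |f z - f w|}
  have hXc : IsClosed X := by
    have c1 : IsClosed {f : V → ℝ | f o = 0} := isClosed_eq (continuous_apply o) continuous_const
    have c2 : IsClosed {f : V → ℝ | ∀ x y, G.Adj x y → |f x - f y| ≤ 1} := by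
      simp only [Set.ofPred_forall]
      exact isClosed_iInter fun x => isClosed_iInter fun y => isClosed_iInter fun _ =>
        isClosed_le (by fun_prop) continuous_const
    have c3 : IsClosed {f : V → ℝ | 1 ≤ ∑ w ∈ K, ∑ z ∈ G.neighborFinset w, |f z - f w|} :=
      isClosed_le continuous_const (by fun_prop)
    exact c1.inter (c2.inter c3)
  have hXK : IsCompact X := by
    refine (isCompact_Icc (a := fun x => -(G.dist x o : ℝ))
      (b := fun x => (G.dist x o : ℝ))).of_isClosed_subset hXc fun f hf => ?_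
    have h := fun x => lip_of_edges G hG hf.2.1 x o
    simp only [hf.1, sub_zero, one_mul, abs_le] at h
    exact ⟨fun x => (h x).1, fun x => (h x).2⟩
  obtain ⟨f, hfX, hf⟩ := hXK.inter_iInter_nonempty
    (fun x : V => {f : V → ℝ | ∑ y ∈ G.neighborFinset x, (f x - f y) = 0})
    (fun x => isClosed_eq (by fun_prop) continuous_const) (fun S => by
      obtain ⟨a, ha, haS⟩ := hC.exists_notMem_finset (K ∪ S)
      obtain ⟨b, hb, hbS⟩ := hD.exists_notMem_finset (K ∪ S)
      have hbC : b ∉ C.supp := fun h =>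
        Set.disjoint_left.1 (SimpleGraph.ComponentCompl.pairwise_disjoint hCD) h hb
      obtain ⟨f, h0, h1, h2, h3⟩ := exists_approx G hG K (K ∪ S) Finset.subset_union_left C.supp
        (fun x y hx hxy hy => SimpleGraph.ComponentCompl.mem_of_adj x y hx hy hxy) a b ha haS
        hbC hbS o
      refine ⟨f, ⟨h0, h1, h3⟩, ?_⟩
      simp only [Set.mem_iInter]
      exact fun x hx => h2 x (Finset.mem_union_right _ hx))
  have hinf : Infinite V := by
    have := hC.to_subtype
    exact Infinite.of_injective (fun x : C.supp => (x : V)) Subtype.val_injective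
  refine ⟨f, fun x => ?_, ⟨1, lip_of_edges G hG hfX.2.1⟩, ?_⟩
  · have hx : G.degree x ≠ 0 := by
      obtain ⟨y, hy⟩ := exists_ne x
      obtain ⟨p⟩ := hG.preconnected x y
      cases p with
      | nil => exact absurd rfl hy
      | cons h _ => exact ((G.degree_pos_iff_exists_adj x).2 ⟨_, h⟩).ne'
    exact (eq_avg_iff G hx).2 (Set.mem_iInter.1 hf x)
  · by_contra hcon
    push Not at hcon
    have h := hfX.2.2
    have : ∑ w ∈ K, ∑ z ∈ G.neighborFinset w, |f z - f w| = 0 :=
      Finset.sum_eq_zero fun w _ => Finset.sum_eq_zero fun z _ => by rw [hcon z w]; simp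
    rw [this] at h
    norm_num at h

end Pool.Agent.H411Z.LH
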