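import Mathlib
import Pool.Agent.H411Z.LH.Defs
import Pool.Agent.H411Z.LH.Ends

set_option autoImplicit false

namespace Pool.Agent.H411Z.LH

open Finset

section General

variable {V : Type*} (G : SimpleGraph V) [G.LocallyFinite]

theorem transient_of_super (u : V → ℝ) (hpos : ∀ x, 0 < u x) (hu : ∀ x, avg G u x < u x) :
    Transient G := by
  classical
  intro o
  have hlin : ∀ x, avg G (fun y => u y / u o) x = avg G u x / u o := by
    intro x
    unfold avg
    rw [← Finset.sum_div]; ring
  have h : ∀ n x, hit G o n x ≤ u x / u o := by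
    intro n
    induction n with
    | zero =>
      intro x
      simp only [hit]
      split_ifs with hx
      · rw [hx, div_self (hpos o).ne']
      · exact (div_pos (hpos x) (hpos o)).le
    | succ n ih =>
      intro x
      simp only [hit]
      split_ifs with hx
      · rw [hx, div_self (hpos o).ne']
      · refine (avg_mono G ih x).trans ?_
        rw [hlin]
        exact div_le_div_of_nonneg_right (hu x).le (hpos o).le
  refine lt_of_le_of_lt (ciSup_le fun n => avg_mono G (h n) o) ?_
  rw [hlin, div_lt_one (hpos o)]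
  exact hu o

end General

/-- A Choquet-Deny type lemma. -/
theorem shift_le {α : Type*} [AddCommGroup α] (g : α → ℝ) (e : α) (B : ℝ) (hB : ∀ z, |g z| ≤ B)
    (H : ∀ M : ℝ, (∀ z, g (z + e) - g z ≤ M) → ∀ z,
      10 * (g (z + e) - g z) ≤ (g (z + e + e) - g (z + e)) + 9 * M) (z : α) :
    g (z + e) ≤ g z := by
  set h : α → ℝ := fun z => g (z + e) - g z with hh
  have hbdd : BddAbove (Set.range h) := ⟨2 * B, by
    rintro _ ⟨z, rfl⟩
    have h1 := abs_le.1 (hB (z + e))
    have h2 := abs_le.1 (hB z)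
    simp only [hh]; linarith⟩
  set M := ⨆ z, h z with hM
  have hle : ∀ z, h z ≤ M := fun z => le_ciSup hbdd z
  by_contra hcon
  have hMpos : 0 < M := lt_of_lt_of_le (by simp only [hh]; linarith [not_le.1 hcon]) (hle z)
  obtain ⟨N, hN⟩ := exists_nat_gt (4 * B / M)
  have hε : 0 < M / (2 * 10 ^ N) := by positivity
  obtain ⟨w, hw⟩ : ∃ w, M - M / (2 * 10 ^ N) < h w :=
    exists_lt_of_lt_ciSup (by linarith)
  have h1 : ∀ n : ℕ, M - 10 ^ n * (M / (2 * 10 ^ N)) ≤ h (w + n • e) := by
    intro n
    induction n with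
    | zero => simpa using hw.le
    | succ n ih =>
      have h2 := H M hle (w + n • e)
      have h3 : w + (n + 1) • e = w + n • e + e := by rw [succ_nsmul, add_assoc]
      rw [h3]
      simp only [hh] at ih ⊢
      rw [pow_succ]
      linarith
  have h2 : ∀ n : ℕ, n ≤ N → n * (M / 2) ≤ g (w + n • e) - g w := by
    intro n
    induction n with
    | zero => simp
    | succ n ih =>
      intro hn
      have h3 := ih (by omega)
      have h4 := h1 n
      have h5 : (10 : ℝ) ^ n * (M / (2 * 10 ^ N)) ≤ M / 2 := by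
        have h6 : (10 : ℝ) ^ n ≤ 10 ^ N := pow_le_pow_right₀ (by norm_num) (by omega)
        calc (10 : ℝ) ^ n * (M / (2 * 10 ^ N)) ≤ 10 ^ N * (M / (2 * 10 ^ N)) :=
              mul_le_mul_of_nonneg_right h6 hε.le
          _ = M / 2 := by field_simp
      have h3' : w + (n + 1) • e = w + n • e + e := by rw [succ_nsmul, add_assoc]
      rw [h3']
      simp only [hh] at h4
      push_cast
      linarith
  have h3 := h2 N le_rfl
  have h4 := abs_le.1 (hB (w + N • e))
  have h5 := abs_le.1 (hB w)
  rw [div_lt_iff₀ hMpos] at hN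
  linarith

/-- Bounded harmonic functions on `ℤ^5` are shift invariant. -/
theorem shift_eq (g : (Fin 5 → ℤ) → ℝ) (B : ℝ) (hB : ∀ z, |g z| ≤ B)
    (hg : ∀ z, ∑ i, (g (z + Pi.single i 1) + g (z - Pi.single i 1)) = 10 * g z) (k : Fin 5)
    (z : Fin 5 → ℤ) : g (z + Pi.single k 1) = g z := by
  have key : ∀ g : (Fin 5 → ℤ) → ℝ, (∀ z, |g z| ≤ B) →
      (∀ z, ∑ i, (g (z + Pi.single i 1) + g (z - Pi.single i 1)) = 10 * g z) →
      g (z + Pi.single k 1) ≤ g z := by
    intro g hB hg
    refine shift_le g (Pi.single k 1) B hB (fun M hM z => ?_) z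
    set e : Fin 5 → ℤ := Pi.single k 1 with he
    have h1 : 10 * (g (z + e) - g z) = ∑ i, ((g (z + Pi.single i 1 + e) - g (z + Pi.single i 1))
        + (g (z - Pi.single i 1 + e) - g (z - Pi.single i 1))) := by
      rw [mul_sub, ← hg, ← hg, ← Finset.sum_sub_distrib]
      refine Finset.sum_congr rfl fun i _ => ?_
      rw [add_right_comm z e, show z + e - Pi.single i 1 = z - Pi.single i 1 + e by abel]
      ring
    rw [h1, ← Finset.add_sum_erase _ _ (Finset.mem_univ k)]
    have h2 : ∑ i ∈ Finset.univ.erase k, ((g (z + Pi.single i 1 + e) - g (z + Pi.single i 1))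
        + (g (z - Pi.single i 1 + e) - g (z - Pi.single i 1))) ≤
        ∑ i ∈ (Finset.univ : Finset (Fin 5)).erase k, 2 * M :=
      Finset.sum_le_sum fun i _ => by linarith [hM (z + Pi.single i 1), hM (z - Pi.single i 1)]
    rw [Finset.sum_const, Finset.card_erase_of_mem (Finset.mem_univ k)] at h2
    simp only [Finset.card_univ, Fintype.card_fin, nsmul_eq_mul] at h2
    have h3 := hM (z - Pi.single k 1)
    rw [← he] at h3 ⊢
    push_cast at h2
    linarith
  apply le_antisymm (key g hB hg)
  have := key (fun z => -g z) (fun z => by simpa using hB z) (fun z => by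
    have := hg z
    simp only [← neg_add, Finset.sum_neg_distrib, this]; ring)
  linarith

/-- The graph induced by the lattice `ℤ^5` on the orthant `ℕ^5`. -/
def orth : SimpleGraph (Fin 5 → ℕ) where
  Adj x y := ∃ i, y = x + Pi.single i 1 ∨ x = y + Pi.single i 1
  symm := ⟨fun _ _ ⟨i, h⟩ => ⟨i, h.symm⟩⟩
  loopless := ⟨fun x ⟨i, h⟩ => by
    have h' : x = x + Pi.single i 1 := by tauto
    have := congrFun h' i
    simp at this⟩

/-- The neighbours of `x` in the orthant graph. -/
def nb (x : Fin 5 → ℕ) : Finset (Fin 5 → ℕ) :=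
  Finset.univ.image (fun i => x + Pi.single i 1) ∪
    (Finset.univ.filter fun i => 0 < x i).image (fun i => x - Pi.single i 1)

theorem mem_nb (x y : Fin 5 → ℕ) : y ∈ nb x ↔ orth.Adj x y := by
  simp only [nb, Finset.mem_union, Finset.mem_image, Finset.mem_univ, true_and,
    Finset.mem_filter, orth]
  constructor
  · rintro (⟨i, rfl⟩ | ⟨i, hi, rfl⟩)
    · exact ⟨i, Or.inl rfl⟩
    · refine ⟨i, Or.inr ?_⟩
      ext j
      by_cases h : j = i
      · subst h; simp; omega
      · simp [h]
  · rintro ⟨i, rfl | rfl⟩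
    · exact Or.inl ⟨i, rfl⟩
    · refine Or.inr ⟨i, by simp, ?_⟩
      ext j
      simp

noncomputable instance orthLF : orth.LocallyFinite := fun x =>
  Fintype.ofFinset (nb x) (fun y => by rw [mem_nb]; rfl)

theorem nbFinset (x : Fin 5 → ℕ) : orth.neighborFinset x = nb x := by
  ext y
  rw [SimpleGraph.mem_neighborFinset, mem_nb]

theorem single_inj {i j : Fin 5} (h : (Pi.single i 1 : Fin 5 → ℕ) i = (Pi.single j 1 : Fin 5 → ℕ) i) :
    i = j := by
  by_contra hij
  simp [hij] at h

theorem sum_nb (x : Fin 5 → ℕ) (g : (Fin 5 → ℕ) → ℝ) (hg : g x = 0) :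
    ∑ y ∈ orth.neighborFinset x, g y
      = ∑ i, (g (x + Pi.single i 1) + g (x - Pi.single i 1)) := by
  rw [nbFinset, nb, Finset.sum_union, Finset.sum_image, Finset.sum_image, Finset.sum_add_distrib,
    Finset.sum_filter]
  · congr 1
    refine Finset.sum_congr rfl fun i _ => ?_
    split_ifs with h
    · rfl
    · have : x - Pi.single i 1 = x := by
        ext j
        by_cases hj : j = i
        · subst hj; simp; omega
        · simp [hj]
      rw [this, hg]
  · intro i hi j hj h
    have hi' : 0 < x i := by simpa using hi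
    have := congrFun h i
    by_contra hij
    simp [hij] at this
    omega
  · intro i _ j _ h
    have := congrFun h i
    simp only [Pi.add_apply, add_right_inj] at this
    exact single_inj this
  · rw [Finset.disjoint_left]
    intro y h1 h2
    simp only [Finset.mem_image, Finset.mem_univ, true_and, Finset.mem_filter] at h1 h2
    obtain ⟨i, rfl⟩ := h1
    obtain ⟨j, -, h⟩ := h2
    have := congrFun h i
    simp at this
    omega

theorem deg_le (x : Fin 5 → ℕ) : orth.degree x ≤ 10 := by
  rw [← SimpleGraph.card_neighborFinset_eq_degree, nbFinset, nb]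
  refine (Finset.card_union_le _ _).trans ?_
  have h1 : (Finset.univ.image (fun i : Fin 5 => x + Pi.single i 1)).card ≤ 5 :=
    Finset.card_image_le.trans (by simp)
  have h2 : ((Finset.univ.filter fun i => 0 < x i).image
      (fun i : Fin 5 => x - Pi.single i 1)).card ≤ 5 :=
    Finset.card_image_le.trans ((Finset.card_filter_le _ _).trans (by simp))
  omega

theorem deg_ne (x : Fin 5 → ℕ) : orth.degree x ≠ 0 :=
  ((orth.degree_pos_iff_exists_adj x).2 ⟨x + Pi.single 0 1, 0, Or.inl rfl⟩).ne'

theorem orth_connected : orth.Connected := by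
  have h : ∀ (n : ℕ) (x : Fin 5 → ℕ), ∑ i, x i = n → orth.Reachable 0 x := by
    intro n
    induction n with
    | zero =>
      intro x hx
      have : x = 0 := by
        ext i
        exact (Finset.sum_eq_zero_iff.1 hx) i (Finset.mem_univ i)
      rw [this]
    | succ n ih =>
      intro x hx
      obtain ⟨i, -, hi⟩ : ∃ i ∈ (Finset.univ : Finset (Fin 5)), x i ≠ 0 :=
        Finset.exists_ne_zero_of_sum_ne_zero (by omega)
      have e : x = (x - Pi.single i 1) + Pi.single i 1 := by
        ext j
        by_cases hj : j = i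
        · subst hj; simp; omega
        · simp [hj]
      have hs : ∑ j, (x - Pi.single i 1 : Fin 5 → ℕ) j = n := by
        have := congrArg (fun y : Fin 5 → ℕ => ∑ j, y j) e
        simp only [Pi.add_apply, Finset.sum_add_distrib, Finset.sum_pi_single', Finset.mem_univ,
          if_true] at this
        omega
      exact (ih _ hs).trans (SimpleGraph.Adj.reachable ⟨i, Or.inl e⟩)
  exact SimpleGraph.Connected.mk fun x y => (h _ x rfl).symm.trans (h _ y rfl)

theorem term_le (s a A : ℝ) (hs : 0 < s) (ha : a ^ 2 ≤ A) (hA : A < s ^ 2) :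
    1 / (s + a) + 1 / (s - a) ≤ 2 / s + 2 * a ^ 2 / (s * (s ^ 2 - A)) := by
  have h1 : a ^ 2 < s ^ 2 := lt_of_le_of_lt ha hA
  have h2 := abs_lt.1 (abs_lt_of_sq_lt_sq h1 hs.le)
  have h3 : 0 < s + a := by linarith [h2.1]
  have h4 : 0 < s - a := by linarith [h2.2]
  have h5 : 0 < s ^ 2 - A := by linarith
  have h6 : 0 < s ^ 2 - a ^ 2 := by linarith
  have e : 1 / (s + a) + 1 / (s - a) = 2 / s + 2 * a ^ 2 / (s * (s ^ 2 - a ^ 2)) := by
    have : s ^ 2 - a ^ 2 = (s + a) * (s - a) := by ring
    rw [this]; field_simp; ring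
  rw [e]
  gcongr

theorem final_lt (s : ℝ) (hs4 : 4 ≤ s) : ((5 : ℕ) : ℝ) * (2 / (s + 1) - 2 / s) +
    2 / ((s + 1) * ((s + 1) ^ 2 - (4 * s - 11))) * (4 * s - 11) < 0 := by
  have p1 : 0 < (s + 1) ^ 2 - (4 * s - 11) := by nlinarith
  have p2 : 0 < s := by linarith
  obtain ⟨t, ht⟩ : ∃ t, t = (s + 1) ^ 2 - (4 * s - 11) := ⟨_, rfl⟩
  rw [← ht] at p1 ⊢
  have e : ((5 : ℕ) : ℝ) * (2 / (s + 1) - 2 / s) + 2 / ((s + 1) * t) * (4 * s - 11)
      = (2 * s * (4 * s - 11) - 10 * t) / (s * (s + 1) * t) := by
    push_cast; field_simp; ring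
  rw [e]
  apply div_neg_of_neg_of_pos
  · rw [ht]; nlinarith
  · positivity

theorem orth_transient : Transient orth := by
  let q : (Fin 5 → ℕ) → ℝ := fun x => ∑ i, (x i : ℝ) * (x i + 1) + 4
  have hq : ∀ x, 4 ≤ q x := fun x => by
    have : 0 ≤ ∑ i, (x i : ℝ) * (x i + 1) := Finset.sum_nonneg fun i _ => by positivity
    simp only [q]; linarith
  have hupd : ∀ (x : Fin 5 → ℕ) (i : Fin 5) (y : Fin 5 → ℕ), (∀ j, j ≠ i → y j = x j) →
      q y = q x - (x i : ℝ) * (x i + 1) + (y i : ℝ) * (y i + 1) := by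
    intro x i y h
    simp only [q]
    rw [← Finset.add_sum_erase _ _ (Finset.mem_univ i),
      ← Finset.add_sum_erase _ (fun j => (x j : ℝ) * (x j + 1)) (Finset.mem_univ i),
      Finset.sum_congr rfl (fun j hj => by rw [h j (Finset.ne_of_mem_erase hj)])]
    ring
  have hp : ∀ (x : Fin 5 → ℕ) (i : Fin 5),
      q (x + Pi.single i 1) = (q x + 1) + (2 * x i + 1) := by
    intro x i
    rw [hupd x i _ (fun j hj => by simp [hj])]
    simp; ring
  have hm : ∀ (x : Fin 5 → ℕ) (i : Fin 5),
      q (x - Pi.single i 1) = (q x + 1) - (2 * x i + 1) := by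
    intro x i
    rw [hupd x i _ (fun j hj => by simp [hj])]
    rcases Nat.eq_zero_or_pos (x i) with h | h
    · simp [h]
    · simp only [Pi.sub_apply, Pi.single_eq_same]
      rw [Nat.cast_sub h]; push_cast; ring
  refine transient_of_super orth (fun x => 1 / q x)
    (fun x => by have := hq x; positivity) fun x => ?_
  have hd : (0 : ℝ) < orth.degree x := by exact_mod_cast Nat.pos_of_ne_zero (deg_ne x)
  have h1 : ∑ y ∈ orth.neighborFinset x, (1 / q y - 1 / q x) < 0 := by
    rw [sum_nb x (fun y => 1 / q y - 1 / q x) (by simp)]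
    simp only [hp, hm]
    set s := q x with hs
    have hs4 : 4 ≤ s := hq x
    have hA : ∑ i, (2 * (x i : ℝ) + 1) ^ 2 = 4 * s - 11 := by
      simp only [hs, q, Fin.sum_univ_five]; ring
    have hAs : 4 * s - 11 < (s + 1) ^ 2 := by nlinarith
    have h2 : ∀ i, 1 / (s + 1 + (2 * (x i : ℝ) + 1)) - 1 / s + (1 / (s + 1 - (2 * x i + 1)) - 1 / s)
        ≤ (2 / (s + 1) - 2 / s) +
          (2 / ((s + 1) * ((s + 1) ^ 2 - (4 * s - 11)))) * (2 * (x i : ℝ) + 1) ^ 2 := by
      intro i
      have h3 : (2 * (x i : ℝ) + 1) ^ 2 ≤ 4 * s - 11 := by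
        rw [← hA]
        exact Finset.single_le_sum (f := fun i => (2 * (x i : ℝ) + 1) ^ 2)
          (fun j _ => sq_nonneg _) (Finset.mem_univ i)
      have h4 := term_le (s + 1) (2 * x i + 1) (4 * s - 11) (by linarith) h3 hAs
      have e1 : 2 / s = 1 / s + 1 / s := by ring
      have e2 : 2 * (2 * (x i : ℝ) + 1) ^ 2 / ((s + 1) * ((s + 1) ^ 2 - (4 * s - 11)))
        = (2 / ((s + 1) * ((s + 1) ^ 2 - (4 * s - 11)))) * (2 * (x i : ℝ) + 1) ^ 2 := by ring
      linarith
    refine lt_of_le_of_lt (Finset.sum_le_sum fun i _ => h2 i) ?_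
    rw [Finset.sum_add_distrib, ← Finset.mul_sum, hA, Finset.sum_const]
    simp only [Finset.card_univ, Fintype.card_fin, nsmul_eq_mul]
    exact final_lt s hs4
  rw [Finset.sum_sub_distrib, Finset.sum_const, SimpleGraph.card_neighborFinset_eq_degree,
    nsmul_eq_mul, sub_neg] at h1
  unfold avg
  rw [one_div, inv_mul_lt_iff₀ hd]
  exact h1

/-- The folding map `ℤ → ℕ` identifying `n` and `-1 - n`. -/
def fold (n : ℤ) : ℕ := if 0 ≤ n then n.toNat else (-1 - n).toNat

theorem fold_step (z : Fin 5 → ℤ) (i : Fin 5) :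
    ((fun j => fold ((z + Pi.single i 1 : Fin 5 → ℤ) j)) = (fun j => fold (z j)) + Pi.single i 1 ∧
      (fun j => fold ((z - Pi.single i 1 : Fin 5 → ℤ) j))
        = (fun j => fold (z j)) - Pi.single i 1) ∨
    ((fun j => fold ((z + Pi.single i 1 : Fin 5 → ℤ) j)) = (fun j => fold (z j)) - Pi.single i 1 ∧
      (fun j => fold ((z - Pi.single i 1 : Fin 5 → ℤ) j))
        = (fun j => fold (z j)) + Pi.single i 1) := by
  by_cases h : 0 ≤ z i
  · left
    constructor <;> ext j <;> by_cases hj : j = i
    · subst hj; simp [fold]; split_ifs <;> omega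
    · simp [hj]
    · subst hj; simp [fold]; split_ifs <;> omega
    · simp [hj]
  · right
    constructor <;> ext j <;> by_cases hj : j = i
    · subst hj; simp [fold]; split_ifs <;> omega
    · simp [hj]
    · subst hj; simp [fold]; split_ifs <;> omega
    · simp [hj]

theorem orth_liouville (f : (Fin 5 → ℕ) → ℝ) (hf : IsHarmonic orth f) (hL : IsLip orth f)
    (x y : Fin 5 → ℕ) : f x = f y := by
  obtain ⟨C, hC⟩ := hL
  have hedge : ∀ x y, orth.Adj x y → |f x - f y| ≤ |C| := by
    intro x y hxy
    have := hC x y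
    rw [SimpleGraph.dist_eq_one_iff_adj.2 hxy] at this
    simp only [Nat.cast_one, mul_one] at this
    exact this.trans (le_abs_self C)
  have hup : ∀ x i, |f (x + Pi.single i 1) - f x| ≤ |C| := fun x i =>
    hedge _ _ ⟨i, Or.inr rfl⟩
  have hdown : ∀ (x : Fin 5 → ℕ) i, |f (x - Pi.single i 1) - f x| ≤ |C| := by
    intro x i
    rcases Nat.eq_zero_or_pos (x i) with h | h
    · have : x - Pi.single i 1 = x := by
        ext j
        by_cases hj : j = i
        · subst hj; simp; omega
        · simp [hj]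
      simp [this]
    · refine hedge _ _ ⟨i, Or.inl ?_⟩
      ext j
      by_cases hj : j = i
      · subst hj; simp; omega
      · simp [hj]
  have hh : ∀ x, ∑ i, (f (x + Pi.single i 1) + f (x - Pi.single i 1)) = 10 * f x := by
    intro x
    have h1 := sum_zero_of_eq_avg orth (hf x)
    rw [sum_nb x (fun y => f x - f y) (by simp)] at h1
    simp only [Fin.sum_univ_five] at h1 ⊢
    linarith
  let F : (Fin 5 → ℤ) → ℝ := fun z => f (fun j => fold (z j))
  have hF : ∀ z, ∑ i, (F (z + Pi.single i 1) + F (z - Pi.single i 1)) = 10 * F z := by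
    intro z
    simp only [F]
    rw [← hh]
    refine Finset.sum_congr rfl fun i _ => ?_
    rcases fold_step z i with ⟨h1, h2⟩ | ⟨h1, h2⟩
    · rw [h1, h2]
    · rw [h1, h2, add_comm]
  have hstep : ∀ (x : Fin 5 → ℕ) (k : Fin 5), f (x + Pi.single k 1) = f x := by
    intro x k
    let g : (Fin 5 → ℤ) → ℝ := fun z => F (z + Pi.single k 1) - F z
    have hgB : ∀ z, |g z| ≤ |C| := by
      intro z
      simp only [g, F]
      rcases fold_step z k with ⟨h1, -⟩ | ⟨h1, -⟩
      · rw [h1]; exact hup _ _
      · rw [h1]; exact hdown _ _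
    have hgh : ∀ z, ∑ i, (g (z + Pi.single i 1) + g (z - Pi.single i 1)) = 10 * g z := by
      intro z
      simp only [g]
      rw [mul_sub, ← hF, ← hF, ← Finset.sum_sub_distrib]
      refine Finset.sum_congr rfl fun i _ => ?_
      rw [add_right_comm z (Pi.single k 1),
        show z + Pi.single k 1 - Pi.single i 1 = z - Pi.single i 1 + Pi.single k 1 by abel]
      ring
    have hsh := shift_eq g |C| hgB hgh k
    let z0 : Fin 5 → ℤ := Function.update (fun j => (x j : ℤ)) k (-1)
    have h0 : g z0 = 0 := by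
      simp only [g, F]
      rw [sub_eq_zero]
      congr 1
      ext j
      by_cases hj : j = k
      · subst hj; simp [z0, fold]
      · simp [hj]
    have hn : ∀ n : ℕ, g (z0 + n • Pi.single k 1) = 0 := by
      intro n
      induction n with
      | zero => simpa using h0
      | succ n ih => rw [succ_nsmul, ← add_assoc, hsh, ih]
    have h1 := hn (x k + 1)
    have e : z0 + (x k + 1) • Pi.single k 1 = fun j => (x j : ℤ) := by
      ext j
      by_cases hj : j = k
      · subst hj; simp [z0]
      · simp [z0, hj]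
    rw [e] at h1
    simp only [g, F] at h1
    have e1 : (fun j => fold (((fun j => (x j : ℤ)) + Pi.single k 1 : Fin 5 → ℤ) j))
        = x + Pi.single k 1 := by
      ext j
      by_cases hj : j = k
      · subst hj; simp [fold]; omega
      · simp [hj, fold]
    have e2 : (fun j => fold (x j : ℤ)) = x := by
      ext j; simp [fold]
    rw [e1, e2] at h1
    exact sub_eq_zero.1 h1
  have := lip_of_edges orth orth_connected (f := f) (c := 0) (by
    rintro a b ⟨i, rfl | rfl⟩ <;> simp [hstep]) x y
  simpa [sub_eq_zero] using this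

theorem transient_counter :
    ∃ (V : Type) (G : SimpleGraph V) (_ : G.LocallyFinite), Infinite V ∧ G.Connected ∧
      (∀ x, G.degree x ≤ 10) ∧ Transient G ∧
      ∀ f : V → ℝ, IsHarmonic G f → IsLip G f → ∀ x y, f x = f y :=
  ⟨Fin 5 → ℕ, orth, orthLF, inferInstance, orth_connected, deg_le, orth_transient,
    orth_liouville⟩

end Pool.Agent.H411Z.LH
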